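import Pool.Agent.Work.MP_b44cb1_al.Full.Final

/-!
# MP_b44cb1_al, full answer to Q1 in our own words

There is a function `f` such that every finite soluble group in the class `V_r` has Fitting length
less than `f r`.
-/

set_option autoImplicit false

namespace Pool.Agent.Results.MP_b44cb1_al.FittingLengthBounded

/-- The left-normed commutators: `eng x y 0 = x` and `eng x y (i + 1) = [eng x y i, y]`, where
`[a, b] = a⁻¹ * b⁻¹ * a * b`; so `eng x y i = [x,_i y]` for `i ≥ 1`. -/
def eng {G : Type*} [Group G] (x y : G) : ℕ → G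
  | 0 => x
  | (i + 1) => (eng x y i)⁻¹ * y⁻¹ * eng x y i * y

/-- The class `V_r`: finite groups for which there is an integer `s > r` such that
`[x,_r y] = [x,_s y]` for all `x, y`. -/
def InV (r : ℕ) (G : Type*) [Group G] : Prop :=
  Finite G ∧ ∃ s : ℕ, r < s ∧ ∀ x y : G, eng x y r = eng x y s

/-- A chain `1 = H 0 ≤ H 1 ≤ ⋯ ≤ H n = G` of normal subgroups of `G` with nilpotent factors
`H (i + 1) / H i`. -/
def Chain (G : Type*) [Group G] (n : ℕ) : Prop :=
  ∃ (H : ℕ → Subgroup G) (_ : ∀ i, (H i).Normal), H 0 = ⊥ ∧ H n = ⊤ ∧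
    ∀ i < n, H i ≤ H (i + 1) ∧ Group.IsNilpotent (H (i + 1) ⧸ (H i).subgroupOf (H (i + 1)))

/-- The Fitting length: the least length of such a chain. -/
noncomputable def fittingLength (G : Type*) [Group G] : ℕ := sInf {n | Chain G n}

theorem eng_eq {G : Type*} [Group G] (x y : G) (n : ℕ) :
    eng x y n = (fun z : G => z⁻¹ * y⁻¹ * z * y)^[n] x := by
  induction n with
  | zero => rfl
  | succ n ih =>
    rw [Function.iterate_succ_apply', ← ih]
    rfl

theorem nilpotent_quotient {G : Type*} [Group G] (K N : Subgroup G) [N.Normal] (c : ℕ)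
    (h : (fun X : Subgroup G => ⁅X, K⁆)^[c] K ≤ N) :
    Group.IsNilpotent (K ⧸ N.subgroupOf K) := by
  have h1 : ∀ n : ℕ, K.lowerCentralSeries n = (fun X : Subgroup G => ⁅X, K⁆)^[n] K := by
    intro n
    induction n with
    | zero => rfl
    | succ n ih =>
      rw [Function.iterate_succ_apply', ← ih]
      rfl
  rw [Subgroup.nilpotent_iff_lowerCentralSeries]
  refine ⟨c, ?_⟩
  have h2 : (⊤ : Subgroup (K ⧸ N.subgroupOf K)) =
      (⊤ : Subgroup K).map (QuotientGroup.mk' (N.subgroupOf K)) := by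
    rw [← MonoidHom.range_eq_map, QuotientGroup.range_mk']
  rw [h2, ← Subgroup.map_lowerCentralSeries, Subgroup.map_eq_bot_iff, QuotientGroup.ker_mk']
  unfold Subgroup.subgroupOf
  rw [← Subgroup.map_le_iff_le_comap, Subgroup.top_subtype_lowerCentralSeries, h1]
  exact h

theorem chain_of {G : Type*} [Group G] {n : ℕ} (h : ∃ H : ℕ → Subgroup G, H 0 = ⊥ ∧ H n = ⊤ ∧
    ∀ i : ℕ, i < n → (H i).Normal ∧ H i ≤ H (i + 1) ∧
      ∃ c : ℕ, (fun K : Subgroup G => ⁅K, H (i + 1)⁆)^[c] (H (i + 1)) ≤ H i) : Chain G n := by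
  obtain ⟨H, h0, hn, h1⟩ := h
  have hN : ∀ i, (if i < n then H i else ⊤).Normal := by
    intro i
    split_ifs with hi
    · exact (h1 i hi).1
    · infer_instance
  refine ⟨fun i => if i < n then H i else ⊤, hN, ?_, ?_, ?_⟩
  · by_cases hi : 0 < n
    · simp only [hi, if_true, h0]
    · have : n = 0 := by omega
      subst this
      simp only [lt_irrefl, if_false]
      rw [← hn, h0]
  · simp only [lt_irrefl, if_false]
  · intro i hi
    have e : (if i + 1 < n then H (i + 1) else ⊤) = H (i + 1) := by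
      split_ifs with h2
      · rfl
      · have : i + 1 = n := by omega
        rw [this, hn]
    have e2 : (if i < n then H i else ⊤) = H i := if_pos hi
    obtain ⟨h3, h4, c, h5⟩ := h1 i hi
    have key : ∀ (K N : Subgroup G) (_ : N.Normal), K = H (i + 1) → N = H i →
        N ≤ K ∧ Group.IsNilpotent (K ⧸ N.subgroupOf K) := by
      rintro K N hN rfl rfl
      exact ⟨h4, nilpotent_quotient (H (i + 1)) (H i) c h5⟩
    exact key _ _ (hN i) e e2

theorem result :
    ∃ f : ℕ → ℕ, ∀ r : ℕ, 1 ≤ r → ∀ (G : Type) [Group G], Group.IsSolvable G → InV r G →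
      Chain G (fittingLength G) ∧ fittingLength G < f r := by
  obtain ⟨f, hf⟩ := Pool.Agent.Work.MP_b44cb1_al.frozen_of_stF
    Pool.Agent.Work.MP_b44cb1_al.stF_exists
  refine ⟨f, fun r hr G _ hs hV => ?_⟩
  obtain ⟨hfin, s, hrs, hl⟩ := hV
  obtain ⟨n, hn, hH⟩ := hf r hr G hs ⟨s, hrs, fun x y => by
    rw [← eng_eq, ← eng_eq]
    exact hl x y⟩
  have hC := chain_of hH
  have hmem : fittingLength G ∈ {n | Chain G n} := Nat.sInf_mem ⟨n, hC⟩
  exact ⟨hmem, lt_of_le_of_lt (Nat.sInf_le hC) hn⟩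

end Pool.Agent.Results.MP_b44cb1_al.FittingLengthBounded
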